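import Pool.Agent.Q256.FX.Stm
import Pool.Agent.H951R3.PB.E1

/-!
# Project FX (helper256), job CONJ

A map with an infinite orbit whose cross ratios lie in a subfield is conjugate to a map over the
subfield.
-/

set_option autoImplicit false

open MvPolynomial

namespace Pool.Agent.Q20.FX

open Pool.Agent.H951R3.PB (wd ev rs dh)
open Pool.Agent.H951R3.PB
open Pool.Agent.Q256.FX

section prop

variable {K : Type} [Field K]

/-- proportionality of two pairs of forms of the same degree which define the same map -/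
theorem prop_dh {d : ℕ} (hd : 1 ≤ d) {p q h0 h1 : Polynomial K} (hp : p.natDegree ≤ d)
    (hq : q.natDegree ≤ d) (hh0 : h0.natDegree ≤ d) (hh1 : h1.natDegree ≤ d)
    (hr : Polynomial.resultant p q d d ≠ 0) (h : p * h1 = q * h0) :
    ∃ c : K, h0 = Polynomial.C c * p ∧ h1 = Polynomial.C c * q := by
  have hco : IsCoprime p q := by
    obtain ⟨a, b, -, -, hab⟩ := Polynomial.exists_mul_add_mul_eq_C_resultant p q hp hq
      (Or.inl (by omega : d ≠ 0))
    refine ⟨Polynomial.C (Polynomial.resultant p q d d)⁻¹ * a,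
      Polynomial.C (Polynomial.resultant p q d d)⁻¹ * b, ?_⟩
    calc _ = Polynomial.C (Polynomial.resultant p q d d)⁻¹ * (p * a + q * b) := by ring
      _ = 1 := by rw [hab, ← Polynomial.C_mul, inv_mul_cancel₀ hr, Polynomial.C_1]
  obtain ⟨s, hs⟩ : p ∣ h0 := hco.dvd_of_dvd_mul_left (h ▸ dvd_mul_right p h1)
  obtain ⟨t, ht⟩ : q ∣ h1 := hco.symm.dvd_of_dvd_mul_left (h.symm ▸ dvd_mul_right q h0)
  by_cases hp0 : p = 0
  · -- then `q` is a unit, of degree `d`
    exfalso
    subst hp0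
    rw [isCoprime_zero_left] at hco
    have h1 : q.natDegree = 0 := Polynomial.natDegree_eq_zero_of_isUnit hco
    exact hr (Polynomial.resultant_eq_zero_of_lt_lt _ _ _ _ (by simp; omega) (by omega))
  by_cases hq0 : q = 0
  · exfalso
    subst hq0
    rw [isCoprime_zero_right] at hco
    have h1 : p.natDegree = 0 := Polynomial.natDegree_eq_zero_of_isUnit hco
    exact hr (Polynomial.resultant_eq_zero_of_lt_lt _ _ _ _ (by omega) (by simp; omega))
  have hst : s = t := by
    rw [hs, ht] at h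
    have h2 : p * q * t = p * q * s := by
      calc _ = p * (q * t) := by ring
        _ = q * (p * s) := h
        _ = _ := by ring
    exact (mul_left_cancel₀ (mul_ne_zero hp0 hq0) h2).symm
  subst hst
  have hdeg : s.natDegree = 0 := by
    by_cases hs0 : s = 0
    · rw [hs0, Polynomial.natDegree_zero]
    rcases Nat.lt_or_ge p.natDegree d with h3 | h3
    · rcases Nat.lt_or_ge q.natDegree d with h4 | h4
      · exact absurd (Polynomial.resultant_eq_zero_of_lt_lt _ _ _ _ h3 h4) hr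
      · rw [ht, Polynomial.natDegree_mul hq0 hs0] at hh1
        omega
    · rw [hs, Polynomial.natDegree_mul hp0 hs0] at hh0
      omega
  obtain ⟨c, hc⟩ := Polynomial.natDegree_eq_zero.1 hdeg
  exact ⟨c, by rw [hs, ← hc, mul_comm], by rw [ht, ← hc, mul_comm]⟩

theorem wd_smul_left (c : K) (x y : Fin 2 → K) : wd (c • x) y = c * wd x y := by
  simp only [wd, Pi.smul_apply, smul_eq_mul]
  ring

theorem wd_smul_right (c : K) (x y : Fin 2 → K) : wd x (c • y) = c * wd x y := by
  simp only [wd, Pi.smul_apply, smul_eq_mul]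
  ring

theorem wd_self (x : Fin 2 → K) : wd x x = 0 := by
  simp only [wd]
  ring

/-- two pairs of forms of degree `d` which agree as maps at infinitely many points -/
theorem prop_forms {d : ℕ} (hd : 1 ≤ d) {f H : Fin 2 → MvPolynomial (Fin 2) K}
    (hf : ∀ i, (f i).IsHomogeneous d) (hH : ∀ i, (H i).IsHomogeneous d) (hr : rs f d ≠ 0)
    (P : ℕ → Fin 2 → K) (hP : ∀ i j, i ≠ j → wd (P i) (P j) ≠ 0)
    (h : ∀ j, wd (ev f (P j)) (ev H (P j)) = 0) :
    ∃ c : K, ∀ x, ev H x = c • ev f x := by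
  have hz : dh (f 0) * dh (H 1) = dh (f 1) * dh (H 0) := by
    rw [← sub_eq_zero]
    refine Polynomial.eq_zero_of_infinite_isRoot _ ?_
    -- all but one of the points are affine
    have haff : ∃ j0, ∀ j, j0 ≤ j → P j 1 ≠ 0 := by
      by_contra hcon
      push Not at hcon
      obtain ⟨a, -, ha⟩ := hcon 0
      obtain ⟨b, hb1, hb⟩ := hcon (a + 1)
      refine hP a b (by omega) ?_
      simp [wd, ha, hb]
    obtain ⟨j0, hj0⟩ := haff
    have hinj : Function.Injective fun j : ℕ => P (j + j0) 0 / P (j + j0) 1 := by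
      intro i j hij
      by_contra hne
      refine hP (i + j0) (j + j0) (by omega) ?_
      have h1 := hj0 (i + j0) (by omega)
      have h2 := hj0 (j + j0) (by omega)
      simp only at hij
      rw [div_eq_div_iff h1 h2] at hij
      rw [wd, hij]
      ring
    refine (Set.infinite_range_of_injective hinj).mono ?_
    rintro _ ⟨j, rfl⟩
    have h1 := hj0 (j + j0) (by omega)
    have h2 := h (j + j0)
    simp only [wd, ev] at h2
    rw [E1.eval_of_ne (hf 0) _ h1, E1.eval_of_ne (hf 1) _ h1, E1.eval_of_ne (hH 0) _ h1,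
      E1.eval_of_ne (hH 1) _ h1] at h2
    change Polynomial.IsRoot _ _
    rw [Polynomial.IsRoot.def, Polynomial.eval_sub, Polynomial.eval_mul, Polynomial.eval_mul]
    have h3 : P (j + j0) 1 ^ d * P (j + j0) 1 ^ d ≠ 0 :=
      mul_ne_zero (pow_ne_zero _ h1) (pow_ne_zero _ h1)
    refine (mul_eq_zero.1 ?_).resolve_right h3
    rw [← h2]
    ring
  obtain ⟨c, hc0, hc1⟩ := prop_dh hd (E1.natDegree_dh_le (hf 0)) (E1.natDegree_dh_le (hf 1))
    (E1.natDegree_dh_le (hH 0)) (E1.natDegree_dh_le (hH 1)) hr hz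
  refine ⟨c, fun x => ?_⟩
  have hi : ∀ i, H i = C c * f i := by
    intro i
    rw [← E1.homog_dh (hH i), ← E1.homog_dh (hf i), ← Polynomial.homogenize_C_mul]
    fin_cases i
    · exact congrArg (fun p => p.homogenize d) hc0
    · exact congrArg (fun p => p.homogenize d) hc1
  funext i
  simp only [ev, Pi.smul_apply, smul_eq_mul]
  rw [hi i, map_mul, eval_C]

end prop

section lin

variable {K : Type} [Field K]

/-- the linear combinations of the variables given by the rows of a matrix -/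
noncomputable def lf (A : Matrix (Fin 2) (Fin 2) K) (i : Fin 2) : MvPolynomial (Fin 2) K :=
  ∑ m, C (A i m) * X m

theorem eval_lf (A : Matrix (Fin 2) (Fin 2) K) (i : Fin 2) (x : Fin 2 → K) :
    eval x (lf A i) = A.mulVec x i := by
  simp [lf, Matrix.mulVec, dotProduct]

theorem lf_hom (A : Matrix (Fin 2) (Fin 2) K) (i : Fin 2) : (lf A i).IsHomogeneous 1 := by
  refine IsHomogeneous.sum _ _ _ fun m _ => ?_
  have := (isHomogeneous_C (Fin 2) (A i m)).mul (isHomogeneous_X K m)
  simpa using this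

/-- `A ∘ f ∘ B` -/
noncomputable def cjf (A B : Matrix (Fin 2) (Fin 2) K) (f : Fin 2 → MvPolynomial (Fin 2) K)
    (i : Fin 2) : MvPolynomial (Fin 2) K :=
  ∑ m, C (A i m) * bind₁ (lf B) (f m)

theorem ev_cjf (A B : Matrix (Fin 2) (Fin 2) K) (f : Fin 2 → MvPolynomial (Fin 2) K)
    (x : Fin 2 → K) : ev (cjf A B f) x = A.mulVec (ev f (B.mulVec x)) := by
  funext i
  have h1 : ∀ m, eval x (bind₁ (lf B) (f m)) = eval (B.mulVec x) (f m) := by
    intro m
    refine (eval₂Hom_bind₁ (RingHom.id K) x (lf B) (f m)).trans ?_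
    have h2 : (fun i => eval₂Hom (RingHom.id K) x (lf B i)) = B.mulVec x :=
      funext fun k => eval_lf B k x
    rw [h2]
    rfl
  simp only [ev, cjf, map_sum, map_mul, eval_C, h1, Matrix.mulVec, dotProduct]

theorem cjf_hom (A B : Matrix (Fin 2) (Fin 2) K) {f : Fin 2 → MvPolynomial (Fin 2) K} {d : ℕ}
    (hf : ∀ i, (f i).IsHomogeneous d) (i : Fin 2) : (cjf A B f i).IsHomogeneous d := by
  refine IsHomogeneous.sum _ _ _ fun m _ => ?_
  have h1 : (bind₁ (lf B) (f m)).IsHomogeneous d := by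
    have := (hf m).aeval (lf B) (lf_hom B)
    simpa using this
  have := (isHomogeneous_C (Fin 2) (A i m)).mul h1
  simpa using this

/-- a linear functional applied to the coefficients -/
noncomputable def fnl (E : Subfield K) (φ : K →ₗ[E] E) (p : MvPolynomial (Fin 2) K) :
    MvPolynomial (Fin 2) K :=
  ∑ μ ∈ p.support, monomial μ ((φ (p.coeff μ) : E) : K)

theorem coeff_fnl (E : Subfield K) (φ : K →ₗ[E] E) (p : MvPolynomial (Fin 2) K)
    (μ : Fin 2 →₀ ℕ) : (fnl E φ p).coeff μ = (φ (p.coeff μ) : E) := by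
  classical
  rw [fnl, coeff_sum]
  simp only [coeff_monomial]
  rw [Finset.sum_ite_eq' p.support μ]
  split_ifs with h
  · rfl
  · rw [notMem_support_iff.1 h, map_zero]
    rfl

theorem eval_fnl (E : Subfield K) (φ : K →ₗ[E] E) (p : MvPolynomial (Fin 2) K)
    (u : Fin 2 → K) (hu : ∀ i, u i ∈ E) : eval u (fnl E φ p) = (φ (eval u p) : E) := by
  rw [fnl, map_sum, eval_eq', map_sum, AddSubmonoidClass.coe_finsetSum]
  refine Finset.sum_congr rfl fun μ _ => ?_
  have h1 : (∏ i, u i ^ μ i) ∈ E := prod_mem fun i _ => pow_mem (hu i) _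
  have h2 : p.coeff μ * ∏ i, u i ^ μ i = (⟨_, h1⟩ : E) • p.coeff μ := by
    rw [Subfield.smul_def, smul_eq_mul, mul_comm]
  rw [h2, map_smul, eval_monomial, Finsupp.prod_fintype _ _ (by simp), smul_eq_mul, mul_comm]
  rfl

theorem ev_smul {f : Fin 2 → MvPolynomial (Fin 2) K} {d : ℕ}
    (hf : ∀ i, (f i).IsHomogeneous d) (c : K) (x : Fin 2 → K) :
    ev f (c • x) = c ^ d • ev f x := by
  funext i
  simp only [ev, Pi.smul_apply, smul_eq_mul, eval_eq' (c • x), eval_eq' x, Finset.mul_sum]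
  refine Finset.sum_congr rfl fun μ hμ => ?_
  have h1 : μ 0 + μ 1 = d := by
    by_contra h
    refine mem_support_iff.1 hμ ((hf i).coeff_eq_zero ?_)
    rw [Finsupp.degree_eq_sum, Fin.sum_univ_two]
    exact h
  simp only [Fin.prod_univ_two, mul_pow]
  rw [← h1, pow_add]
  ring

theorem fnl_hom (E : Subfield K) (φ : K →ₗ[E] E) {p : MvPolynomial (Fin 2) K} {d : ℕ}
    (hp : p.IsHomogeneous d) : (fnl E φ p).IsHomogeneous d := by
  refine IsHomogeneous.sum _ _ _ fun μ hμ => isHomogeneous_monomial _ ?_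
  by_contra h
  exact (mem_support_iff.1 hμ) (hp.coeff_eq_zero h)

end lin

/-- CONJ -/
theorem conj' : Pool.Agent.Q256.FX.S_conj := by
  intro K _ _ E d hd f hf hr P horb hP hcr
  classical
  have h01 := hP 0 1 (by norm_num)
  have h21 := hP 2 1 (by norm_num)
  have h02 := hP 0 2 (by norm_num)
  set α : K := wd (P 2) (P 1) / wd (P 0) (P 1) with hα
  set β : K := wd (P 0) (P 2) / wd (P 0) (P 1) with hβ
  have hα0 : α ≠ 0 := div_ne_zero h21 h01
  have hβ0 : β ≠ 0 := div_ne_zero h02 h01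
  set A : Matrix (Fin 2) (Fin 2) K := !![α * P 0 0, β * P 1 0; α * P 0 1, β * P 1 1] with hA
  have hdet : A.det = α * β * wd (P 0) (P 1) := by
    rw [hA, Matrix.det_fin_two_of, wd]
    ring
  have hdet0 : A.det ≠ 0 := by
    rw [hdet]
    exact mul_ne_zero (mul_ne_zero hα0 hβ0) h01
  have hAA : A * A⁻¹ = 1 := Matrix.mul_nonsing_inv _ (isUnit_iff_ne_zero.2 hdet0)
  have hAA' : A⁻¹ * A = 1 := Matrix.nonsing_inv_mul _ (isUnit_iff_ne_zero.2 hdet0)
  -- the points in the new coordinates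
  let u : ℕ → Fin 2 → K := fun j => ![cross (P 0) (P 1) (P 2) (P (j + 3)), 1]
  have hu : ∀ j i, u j i ∈ E := by
    intro j i
    fin_cases i
    · exact hcr (j + 3) (by omega)
    · exact one_mem E
  let b : ℕ → K := fun j => wd (P 0) (P (j + 3)) / wd (P 0) (P 2)
  have hb : ∀ j, b j ≠ 0 := fun j => div_ne_zero (hP _ _ (by omega)) h02
  have hbu : ∀ j, P (j + 3) = b j • A.mulVec (u j) := by
    intro j
    have h0j := hP 0 (j + 3) (by omega)
    funext i
    have e1 : wd (P 0) (P 1) * P (j + 3) i = wd (P (j + 3)) (P 1) * P 0 i +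
        wd (P 0) (P (j + 3)) * P 1 i := by
      fin_cases i <;> simp only [wd, Fin.mk_one, Fin.zero_eta] <;> ring
    have e2 : b j • A.mulVec (u j) i = (wd (P (j + 3)) (P 1) * P 0 i +
        wd (P 0) (P (j + 3)) * P 1 i) / wd (P 0) (P 1) := by
      simp only [b, u, hA, hα, hβ, cross]
      fin_cases i <;> simp [Matrix.mulVec, dotProduct] <;> field_simp
    rw [Pi.smul_apply, e2, ← e1]
    field_simp
  -- the map in the new coordinates
  have hF : ∀ j, ∃ γ : K, γ ≠ 0 ∧ ev (cjf A⁻¹ A f) (u j) = γ • u (j + 1) := by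
    intro j
    obtain ⟨c, hc, hcj⟩ := horb (j + 3)
    refine ⟨(b j)⁻¹ ^ d * (c * b (j + 1)), mul_ne_zero (pow_ne_zero _ (inv_ne_zero (hb j)))
      (mul_ne_zero hc (hb (j + 1))), ?_⟩
    have h1 : A.mulVec (u j) = (b j)⁻¹ • P (j + 3) := by
      rw [hbu j, smul_smul, inv_mul_cancel₀ (hb j), one_smul]
    have h2 : P (j + 3 + 1) = b (j + 1) • A.mulVec (u (j + 1)) := hbu (j + 1)
    rw [ev_cjf, h1, ev_smul hf, hcj, h2, smul_smul, smul_smul, Matrix.mulVec_smul,
      Matrix.mulVec_mulVec, hAA', Matrix.one_mulVec, mul_assoc]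
  choose γ hγ0 hγ using hF
  obtain ⟨φ, hφ⟩ : ∃ φ : K →ₗ[E] E, φ (γ 0) ≠ 0 := by
    by_contra hcon
    push Not at hcon
    exact hγ0 0 ((Module.forall_dual_apply_eq_zero_iff E (γ 0)).1 hcon)
  have hFh := cjf_hom A⁻¹ A hf
  let G : Fin 2 → MvPolynomial (Fin 2) K := fun i => fnl E φ (cjf A⁻¹ A f i)
  have hGh : ∀ i, (G i).IsHomogeneous d := fun i => fnl_hom E φ (hFh i)
  have hG : ∀ j, ev G (u j) = ((φ (γ j) : E) : K) • u (j + 1) := by
    intro j
    funext i
    change eval (u j) (fnl E φ (cjf A⁻¹ A f i)) = _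
    rw [eval_fnl E φ _ _ (hu j)]
    have h1 : eval (u j) (cjf A⁻¹ A f i) = (⟨u (j + 1) i, hu (j + 1) i⟩ : E) • γ j := by
      have := congrFun (hγ j) i
      rw [Pi.smul_apply, smul_eq_mul] at this
      rw [Subfield.smul_def, smul_eq_mul, mul_comm]
      exact this
    rw [h1, map_smul, smul_eq_mul, Pi.smul_apply, smul_eq_mul, mul_comm]
    rfl
  have hH : ∀ j, ev (cjf A A⁻¹ G) (P (j + 3)) =
      (b j ^ d * ((φ (γ j) : E) : K) * (b (j + 1))⁻¹) • P (j + 4) := by
    intro j
    have h1 : A⁻¹.mulVec (P (j + 3)) = b j • u j := by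
      rw [hbu j, Matrix.mulVec_smul, Matrix.mulVec_mulVec, hAA', Matrix.one_mulVec]
    have h2 : P (j + 4) = b (j + 1) • A.mulVec (u (j + 1)) := hbu (j + 1)
    rw [ev_cjf, h1, ev_smul hGh, hG, Matrix.mulVec_smul, Matrix.mulVec_smul, h2, smul_smul,
      smul_smul, mul_assoc, mul_assoc, inv_mul_cancel₀ (hb (j + 1)), mul_one]
  obtain ⟨c, hc⟩ := prop_forms hd hf (cjf_hom A A⁻¹ hGh) hr (fun j => P (j + 3))
    (fun i j hij => hP _ _ (by omega)) (by
      intro j
      obtain ⟨c, -, hcj⟩ := horb (j + 3)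
      rw [hcj, hH j, wd_smul_left, wd_smul_right, wd_self, mul_zero, mul_zero])
  have hc0 : c ≠ 0 := by
    rintro rfl
    have h1 := hc (P (0 + 3))
    rw [hH 0, zero_smul, smul_eq_zero] at h1
    rcases h1 with h1 | h1
    · refine mul_ne_zero (mul_ne_zero (pow_ne_zero _ (hb 0)) ?_) (inv_ne_zero (hb 1)) h1
      intro h2
      exact hφ (Subtype.ext h2)
    · refine hP 0 4 (by norm_num) ?_
      rw [h1]
      simp [wd]
  refine ⟨A, G, c⁻¹, hdet0, inv_ne_zero hc0, hGh, fun i μ => ?_, fun v => ?_⟩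
  · change (fnl E φ _).coeff μ ∈ E
    rw [coeff_fnl]
    exact SetLike.coe_mem _
  · have h1 := hc (A.mulVec v)
    rw [ev_cjf, Matrix.mulVec_mulVec, hAA', Matrix.one_mulVec] at h1
    rw [h1, smul_smul, inv_mul_cancel₀ hc0, one_smul]


end Pool.Agent.Q20.FX
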